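import Mathlib

/-!
# The groupwise density number and the dominating number
-/

set_option autoImplicit false

namespace Pool.Agent.helper51.FC

open Set Filter Cardinal Topology

/-- A family of infinite subsets of `ω` is groupwise dense if it is closed under almost subsets and, for every partition
of `ω` into finite intervals `[p k, p (k+1))`, it contains the union of infinitely many of the intervals. -/
def IsGroupwiseDenseFam (D : Set (Set ℕ)) : Prop :=
  (∀ a ∈ D, a.Infinite) ∧ (∀ a ∈ D, ∀ b : Set ℕ, b.Infinite → (b \ a).Finite → b ∈ D) ∧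
    ∀ p : ℕ → ℕ, StrictMono p → p 0 = 0 →
      ∃ K : Set ℕ, K.Infinite ∧ {x | ∃ k ∈ K, p k ≤ x ∧ x < p (k + 1)} ∈ D

/-- The groupwise density number: the least cardinality of a collection of groupwise dense families with empty
intersection. -/
noncomputable def gNum : Cardinal.{0} :=
  sInf {c | ∃ A : Set (Set (Set ℕ)), (∀ D ∈ A, IsGroupwiseDenseFam D) ∧ ⋂₀ A = ∅ ∧ #A = c}

/-- The dominating number. -/
noncomputable def dNum : Cardinal.{0} :=
  sInf {c | ∃ G : Set (ℕ → ℕ), (∀ f : ℕ → ℕ, ∃ g ∈ G, ∀ᶠ n in atTop, f n ≤ g n) ∧ #G = c}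

end Pool.Agent.helper51.FC
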