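import Pool.Agent.helper71.SelMain
import Pool.Agent.helper51.FC.GDefs

/-!
# Products of `κ`-fin-unbounded sets with gamma-spaces: the groupwise density number
-/

set_option autoImplicit false

universe u

namespace Pool.Agent.helper51.FC

open Set Filter Cardinal Topology
open Pool.Agent.helper71.Sel

/-- the families used in the proof -/
def GF {T : Type} {Y : Type u} (V : ℕ → ℕ → Set (T × Y)) (F : Finset T) : Set (Set ℕ) :=
  {a | a.Infinite ∧ ∃ I : Set ℕ, I.Infinite ∧ ∀ y : Y,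
    {n | n ∈ I ∧ ∃ m ∈ a, n < m ∧ ∃ t ∈ F, (t, y) ∉ V n m}.Finite}

lemma isGroupwiseDenseFam_GF {T : Type} [TopologicalSpace T] {Y : Type u} [TopologicalSpace Y]
    (hY : GammaSeq Y) (V : ℕ → ℕ → Set (T × Y)) (hVopen : ∀ n m, IsOpen (V n m))
    (hV : ∀ n z, ∀ᶠ m in atTop, z ∈ V n m) (F : Finset T) : IsGroupwiseDenseFam (GF V F) := by
  classical
  refine ⟨fun a ha => ha.1, ?_, ?_⟩
  · rintro a ⟨_, I, hI, ha⟩ b hb hba
    refine ⟨hb, I, hI, fun y => ?_⟩
    obtain ⟨N, hN⟩ := hba.bddAbove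
    refine ((Set.finite_Iio (N + 1)).union (ha y)).subset ?_
    rintro n ⟨hnI, m, hmb, hnm, t, ht, hbad⟩
    by_cases hnN : n < N + 1
    · exact Or.inl hnN
    · right
      refine ⟨hnI, m, ?_, hnm, t, ht, hbad⟩
      by_contra hma
      have := hN ⟨hmb, hma⟩
      omega
  · intro p hp _
    obtain ⟨U, hU, hU'⟩ := hY
      (fun j => {v | ∃ k, j + 1 ≤ k ∧
        v = {y : Y | ∀ i ≤ j, ∀ m, p k ≤ m → m < p (k + 1) → ∀ t ∈ F, (t, y) ∈ V i m}})
      (by
        rintro j v ⟨k, _, rfl⟩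
        have : {y : Y | ∀ i ≤ j, ∀ m, p k ≤ m → m < p (k + 1) → ∀ t ∈ F, (t, y) ∈ V i m} =
            ⋂ i ∈ Finset.range (j + 1), ⋂ m ∈ Finset.Ico (p k) (p (k + 1)), ⋂ t ∈ F, {y : Y | (t, y) ∈ V i m} := by
          ext y
          simp only [Set.mem_ofPred_eq, Set.mem_iInter, Finset.mem_range, Finset.mem_Ico]
          exact ⟨fun h i hi m hm t ht => h i (by omega) m hm.1 hm.2 t ht,
            fun h i hi m hm1 hm2 t ht => h i (by omega) m ⟨hm1, hm2⟩ t ht⟩
        rw [this]
        exact isOpen_biInter_finset (fun i _ => isOpen_biInter_finset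
          (fun m _ => isOpen_biInter_finset (fun t _ => (hVopen _ _).preimage (by fun_prop)))))
      (by
        intro j G hG
        have h1 : ∀ᶠ m in atTop, ∀ i ∈ Set.Iic j, (F : Set T) ×ˢ G ⊆ V i m := by
          rw [Filter.eventually_all_finite (Set.finite_Iic _)]
          intro i _
          exact eventually_subset_of_finite (F.finite_toSet.prod hG) (hV i)
        obtain ⟨M, hM⟩ := Filter.eventually_atTop.1 h1
        refine ⟨_, ⟨max (j + 1) M, le_max_left _ _, rfl⟩, ?_⟩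
        intro y hy i hi m hm _ t ht
        have h2 : M ≤ m := (le_max_right (j + 1) M).trans ((hp.id_le _).trans hm)
        exact hM m h2 i hi ⟨ht, hy⟩)
    choose q hq1 hq2 using hU
    -- the sequence of the intervals
    obtain ⟨k, hk0, hk⟩ : ∃ k : ℕ → ℕ, k 0 = 0 ∧ ∀ s, k (s + 1) = q (p (k s + 1)) :=
      ⟨fun s => Nat.rec 0 (fun _ r => q (p (r + 1))) s, rfl, fun _ => rfl⟩
    have hk1 : ∀ s, k s + 2 ≤ k (s + 1) := by
      intro s
      have h1 := hq1 (p (k s + 1))
      have h2 : k s + 1 ≤ p (k s + 1) := hp.id_le _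
      rw [hk s]
      omega
    have hkm : StrictMono k := strictMono_nat_of_lt_succ fun s => by
      have := hk1 s
      omega
    have hnm : StrictMono fun s => p (k s + 1) := fun s s' hs => hp (by
      have := hkm hs
      omega)
    have hKinf : (Set.range k).Infinite := Set.infinite_range_of_injective hkm.injective
    refine ⟨Set.range k, hKinf, ?_, Set.range fun s => p (k s + 1),
      Set.infinite_range_of_injective hnm.injective, ?_⟩
    · refine (hKinf.image (hp.injective.injOn)).mono ?_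
      rintro _ ⟨r, hr, rfl⟩
      exact ⟨r, hr, le_rfl, hp (Nat.lt_succ_self r)⟩
    · intro y
      obtain ⟨s0, hs0⟩ := Filter.eventually_atTop.1 (hU' y)
      refine ((Set.finite_Iio s0).image fun s => p (k s + 1)).subset ?_
      rintro _ ⟨⟨s, rfl⟩, m, ⟨_, ⟨r, rfl⟩, hm1, hm2⟩, hnm', t, ht, hbad⟩
      refine ⟨s, ?_, rfl⟩
      by_contra hs
      rw [Set.mem_Iio, not_lt] at hs
      have hsr : s < r := by
        by_contra hc
        rw [not_lt] at hc
        have h1 : k r ≤ k s := hkm.monotone hc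
        have h2 : p (k r + 1) ≤ p (k s + 1) := hp.monotone (by omega)
        have h3 : p (k s + 1) < m := hnm'
        omega
      obtain ⟨r', rfl⟩ : ∃ r', r = r' + 1 := ⟨r - 1, by omega⟩
      have h4 : s0 ≤ p (k r' + 1) := by
        have h5 : r' ≤ k r' := hkm.id_le r'
        have h6 : k r' + 1 ≤ p (k r' + 1) := hp.id_le _
        omega
      have h7 := hs0 _ h4
      rw [hq2] at h7
      refine hbad (h7 (p (k s + 1)) ?_ m ?_ ?_ t ht)
      · exact hp.monotone (by
          have := hkm.monotone (show s ≤ r' by omega)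
          omega)
      · rw [← hk r']
        exact hm1
      · rw [← hk r']
        exact hm2

/-- Products of gamma-spaces with spaces of size less than the groupwise density number. -/
theorem s1Seq_prod_of_lt_gNum {T : Type} [TopologicalSpace T] {Y : Type u} [TopologicalSpace Y]
    (hT : #T < gNum) (hY : GammaSeq Y) : S1Seq (T × Y) := by
  classical
  rcases lt_or_ge ℵ₀ (#T) with hT0 | hT0
  swap
  · exact s1Seq_prod_of_lt_covM (lt_of_le_of_lt hT0 aleph0_lt_covM) hY
  intro V hVopen hV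
  have hinf : Infinite T := Cardinal.infinite_iff.2 hT0.le
  have hcard : #(Finset T) < gNum := by
    rw [Cardinal.mk_finset_of_infinite]; exact hT
  have hex : ∃ a : Set ℕ, ∀ F : Finset T, a ∈ GF V F := by
    by_contra hcon
    push Not at hcon
    have h1 : gNum ≤ #(Set.range (GF V)) := by
      apply csInf_le'
      refine ⟨Set.range (GF V), ?_, ?_, rfl⟩
      · rintro _ ⟨F, rfl⟩
        exact isGroupwiseDenseFam_GF hY V hVopen hV F
      · rw [Set.sInter_range, Set.eq_empty_iff_forall_notMem]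
        intro a ha
        obtain ⟨F, hF⟩ := hcon a
        exact hF (Set.mem_iInter.1 ha F)
    exact absurd (lt_of_le_of_lt (h1.trans Cardinal.mk_range_le) hcard) (lt_irrefl _)
  obtain ⟨a, ha⟩ := hex
  have hainf : a.Infinite := (ha ∅).1
  choose h hh1 hh2 using fun n => hainf.exists_gt n
  refine ⟨h, fun Φ hΦ => ?_⟩
  let F : Finset T := (hΦ.image Prod.fst).toFinset
  obtain ⟨_, I, hI, hy⟩ := ha F
  have h1 : (I \ ⋃ y ∈ Prod.snd '' Φ, {n | n ∈ I ∧ ∃ m ∈ a, n < m ∧ ∃ t ∈ F, (t, y) ∉ V n m}).Infinite :=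
    hI.sdiff ((hΦ.image _).biUnion fun y _ => hy y)
  refine (Nat.frequently_atTop_iff_infinite.2 h1).mono ?_
  rintro n ⟨hnI, hn⟩ ⟨t, y⟩ hty
  by_contra hbad
  apply hn
  refine Set.mem_iUnion₂.2 ⟨y, ⟨(t, y), hty, rfl⟩, hnI, h n, hh1 n, hh2 n, t, ?_, hbad⟩
  simp only [F, Set.Finite.mem_toFinset]
  exact ⟨(t, y), hty, rfl⟩

/-! ### Comparison with the distributivity number and the dominating number -/

lemma disj_intervals {p : ℕ → ℕ} (hp : StrictMono p) {k k' x : ℕ} (h1 : p k ≤ x) (h2 : x < p (k + 1))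
    (h3 : p k' ≤ x) (h4 : x < p (k' + 1)) : k = k' := by
  rcases lt_trichotomy k k' with h | h | h
  · have := hp.monotone (show k + 1 ≤ k' by omega)
    omega
  · exact h
  · have := hp.monotone (show k' + 1 ≤ k by omega)
    omega

/-- The groupwise dense family of the sets which do not almost contain `X`. -/
lemma isGroupwiseDenseFam_not_contain {X : Set ℕ} (hX : X.Infinite) :
    IsGroupwiseDenseFam {a | a.Infinite ∧ (X \ a).Infinite} := by
  refine ⟨fun a ha => ha.1, ?_, ?_⟩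
  · rintro a ⟨_, ha⟩ b hb hba
    refine ⟨hb, (ha.sdiff hba).mono ?_⟩
    rintro x ⟨⟨hx1, hx2⟩, hx3⟩
    exact ⟨hx1, fun hxb => hx3 ⟨hxb, hx2⟩⟩
  · intro p hp _
    have hinf : ∀ K : Set ℕ, K.Infinite → {x | ∃ k ∈ K, p k ≤ x ∧ x < p (k + 1)}.Infinite := by
      intro K hK
      refine (hK.image (hp.injective.injOn)).mono ?_
      rintro _ ⟨r, hr, rfl⟩
      exact ⟨r, hr, le_rfl, hp (Nat.lt_succ_self r)⟩
    have he : {k : ℕ | k % 2 = 0}.Infinite :=
      (Set.infinite_range_of_injective (f := fun k : ℕ => 2 * k) (fun a b h => by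
        have : 2 * a = 2 * b := h
        omega)).mono (by
          rintro _ ⟨k, rfl⟩
          show 2 * k % 2 = 0
          omega)
    have ho : {k : ℕ | k % 2 = 1}.Infinite :=
      (Set.infinite_range_of_injective (f := fun k : ℕ => 2 * k + 1) (fun a b h => by
        have : 2 * a + 1 = 2 * b + 1 := h
        omega)).mono (by
          rintro _ ⟨k, rfl⟩
          show (2 * k + 1) % 2 = 1
          omega)
    by_cases h : (X \ {x | ∃ k ∈ {k : ℕ | k % 2 = 0}, p k ≤ x ∧ x < p (k + 1)}).Infinite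
    · exact ⟨_, he, hinf _ he, h⟩
    · refine ⟨_, ho, hinf _ ho, fun h' => ?_⟩
      rw [Set.not_infinite] at h
      refine hX ((h.union h').subset ?_)
      intro x hx
      by_cases hx0 : x ∈ {x | ∃ k ∈ {k : ℕ | k % 2 = 0}, p k ≤ x ∧ x < p (k + 1)}
      · right
        refine ⟨hx, ?_⟩
        rintro ⟨k, hk, hk1, hk2⟩
        obtain ⟨k', hk', hk1', hk2'⟩ := hx0
        have h5 := disj_intervals hp hk1 hk2 hk1' hk2'
        have h6 : k % 2 = 1 := hk
        have h7 : k' % 2 = 0 := hk'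
        omega
      · exact Or.inl ⟨hx, hx0⟩

lemma gNum_set_nonempty : {c : Cardinal.{0} | ∃ A : Set (Set (Set ℕ)), (∀ D ∈ A, IsGroupwiseDenseFam D) ∧
    ⋂₀ A = ∅ ∧ #A = c}.Nonempty := by
  refine ⟨_, (fun X : Set ℕ => {a : Set ℕ | a.Infinite ∧ (X \ a).Infinite}) '' {X | X.Infinite}, ?_, ?_, rfl⟩
  · rintro _ ⟨X, hX, rfl⟩
    exact isGroupwiseDenseFam_not_contain hX
  · rw [Set.eq_empty_iff_forall_notMem]
    intro a ha
    have h1 : a.Infinite := (ha _ ⟨Set.univ, Set.infinite_univ, rfl⟩).1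
    have h2 := (ha _ ⟨a, h1, rfl⟩).2
    rw [sdiff_self] at h2
    exact h2 Set.finite_empty

/-- Groupwise dense families are open and dense. -/
lemma isDenseOpenFam_of_groupwise {D : Set (Set ℕ)} (hD : IsGroupwiseDenseFam D) : IsDenseOpenFam D := by
  refine ⟨hD.1, hD.2.1, fun a ha => ?_⟩
  choose f hf1 hf2 using fun n => ha.exists_gt n
  obtain ⟨p, hp0, hps⟩ : ∃ p : ℕ → ℕ, p 0 = 0 ∧ ∀ s, p (s + 1) = f (p s) + 1 :=
    ⟨fun s => Nat.rec 0 (fun _ r => f r + 1) s, rfl, fun _ => rfl⟩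
  have hp : StrictMono p := strictMono_nat_of_lt_succ fun s => by
    rw [hps s]
    have := hf2 (p s)
    omega
  obtain ⟨K, hK, hKD⟩ := hD.2.2 p hp hp0
  have hfm : StrictMono fun s => f (p s) := strictMono_nat_of_lt_succ fun s => by
    have h1 := hf2 (p (s + 1))
    rw [hps s] at h1
    rw [hps s]
    omega
  refine ⟨{x | ∃ k ∈ K, p k ≤ x ∧ x < p (k + 1)} ∩ a, ?_, Set.inter_subset_right⟩
  refine hD.2.1 _ hKD _ ?_ ?_
  · refine (hK.image (hfm.injective.injOn)).mono ?_
    rintro _ ⟨k, hk, rfl⟩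
    refine ⟨⟨k, hk, (hf2 (p k)).le, ?_⟩, hf1 (p k)⟩
    rw [hps k]
    exact Nat.lt_succ_self _
  · refine Set.finite_empty.subset ?_
    rintro x ⟨hx1, hx2⟩
    exact hx2 hx1.1

/-- The distributivity number is at most the groupwise density number. -/
theorem hNum_le_gNum : hNum ≤ gNum := by
  refine le_csInf gNum_set_nonempty ?_
  rintro c ⟨A, hA, hA', rfl⟩
  exact csInf_le' ⟨A, fun D hD => isDenseOpenFam_of_groupwise (hA D hD), hA', rfl⟩

/-- `pr(S₁(Γ, Ω))` is at most the dominating number. -/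
theorem prS1_le_dNum : prS1 ≤ dNum := by
  refine le_csInf ⟨_, Set.univ, fun f => ⟨f, Set.mem_univ _, Filter.Eventually.of_forall fun n => le_rfl⟩, rfl⟩ ?_
  rintro c ⟨G, hG, rfl⟩
  by_contra hcon
  rw [not_le] at hcon
  have h1 : #(G ⊕ ℕ) < prS1 := by
    rw [Cardinal.mk_sum, Cardinal.lift_id, Cardinal.lift_id]
    exact Cardinal.add_lt_of_lt aleph0_lt_prS1.le hcon (by rw [Cardinal.mk_nat]; exact aleph0_lt_prS1)
  have hinf : Infinite (G ⊕ ℕ) := inferInstance
  obtain ⟨h, hh⟩ := exists_not_dominated h1 (fun x => Sum.elim (fun g : G => g.1) (fun _ _ => 0) x)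
  obtain ⟨g, hg, hgh⟩ := hG (fun n => h n + 1)
  obtain ⟨n, hn1, hn2⟩ := ((hh {Sum.inl ⟨g, hg⟩} (Set.finite_singleton _)).and_eventually hgh).exists
  have h3 : g n ≤ h n := hn1 _ rfl
  omega

/-- The main theorem. -/
theorem main_group {κ : Cardinal.{0}} (hκ : κ.IsRegular) (hpr : κ ≤ prS1)
    {X : Set (ℕ → Bool)} (hX : FinUnbounded κ X) {Y : Type u} [TopologicalSpace Y] [T35Space Y]
    [Infinite Y] (hY : HasGammaProperty Y)
    (h : PerfectlyNormalSpace Y ∨ κ ≤ covM ∨ κ ≤ gNum ∨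
      ∃ μ < κ, CtblCofinal μ ∧ MetrizableImagesLE Y μ) :
    S1GammaOmega ((X ∪ FinSets : Set (ℕ → Bool)) × Y) := by
  have hκ0 : ℵ₀ < κ := by
    refine lt_of_le_of_ne hκ.1 ?_
    rintro rfl
    exact not_finUnbounded_aleph0 X hX
  have hcard : ∀ S : Set (ℕ → Bool), #S < κ → #(S ∪ FinSets : Set (ℕ → Bool)) < κ := by
    intro S hS
    refine lt_of_le_of_lt (Cardinal.mk_union_le _ _) (Cardinal.add_lt_of_lt hκ.1 hS ?_)
    exact lt_of_le_of_lt (Cardinal.mk_le_aleph0_iff.2 finSets_countable.to_subtype) hκ0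
  rcases h with h | h | h | h
  · exact main_all hκ hpr hX hY (Or.inl h)
  · exact main_all hκ hpr hX hY (Or.inr (Or.inl h))
  · exact core hκ hX (gammaSeq_of_hasGammaProperty hY) fun S _ hS =>
      s1Seq_prod_of_lt_gNum ((hcard S hS).trans_le h) (gammaSeq_of_hasGammaProperty hY)
  · exact main_all hκ hpr hX hY (Or.inr (Or.inr (Or.inr h)))

/-- If the dominating number is at most the larger one of `cov(M)` and the groupwise density number, then the answer
is positive in all cases. -/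
theorem main_full (hd : dNum ≤ max covM gNum) {κ : Cardinal.{0}} (hκ : κ.IsRegular) (hpr : κ ≤ prS1)
    {X : Set (ℕ → Bool)} (hX : FinUnbounded κ X) {Y : Type u} [TopologicalSpace Y] [T35Space Y]
    [Infinite Y] (hY : HasGammaProperty Y) : S1GammaOmega ((X ∪ FinSets : Set (ℕ → Bool)) × Y) := by
  have h1 : κ ≤ max covM gNum := hpr.trans (prS1_le_dNum.trans hd)
  rcases le_max_iff.1 h1 with h | h
  · exact main_group hκ hpr hX hY (Or.inr (Or.inl h))
  · exact main_group hκ hpr hX hY (Or.inr (Or.inr (Or.inl h)))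

end Pool.Agent.helper51.FC
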